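import Mathlib
import Pool.Agent.H69.Plateau

open Filter Topology Pool.Agent.H69.Plateau

namespace Pool.Agent.Results.MP_25f285_al.Bounded

/-- An integer valued, invariant, proper metric on the group of integers, bi-Lipschitz to the
word metric, for which the zero function is a metric-functional. -/
theorem result : ∃ d : ℤ → ℤ → ℕ,
    (∀ x y, d x y = 0 ↔ x = y) ∧ (∀ x y, d x y = d y x) ∧ (∀ x y z, d x z ≤ d x y + d y z) ∧
    (∀ g x y, d (g + x) (g + y) = d x y) ∧
    (∀ (x : ℤ) (r : ℕ), {y | d x y ≤ r}.Finite) ∧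
    (∀ x y, |x - y| ≤ d x y ∧ (d x y : ℤ) ≤ 3 * |x - y|) ∧
    ∃ x : ℕ → ℤ, Tendsto x atTop cofinite ∧
      ∀ y, Tendsto (fun n => (d (x n) y : ℝ) - d (x n) 0) atTop (𝓝 0) := by
  refine ⟨fun x y => N (x - y), fun x y => ?_, fun x y => ?_, fun x y z => ?_, fun g x y => ?_,
    fun x r => ?_, fun x y => ?_, X, ?_, fun y => ?_⟩
  · have := N_ge (x - y)
    have := N_le (x - y)
    simp only
    omega
  · simp only
    rw [← N_neg, neg_sub]
  · simpa using N_add (x - y) (y - z)
  · simp
  · refine (Set.finite_Icc (x - r) (x + r)).subset (fun y hy => ?_)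
    have := N_ge (x - y)
    simp only [Set.mem_ofPred_eq] at hy
    simp only [Set.mem_Icc]
    omega
  · have := N_ge (x - y)
    have := N_le (x - y)
    simp only [Int.abs_eq_natAbs]
    omega
  · refine Tendsto.mono_right ?_ atTop_le_cofinite
    refine tendsto_atTop_mono' _ ?_ tendsto_natCast_atTop_atTop
    filter_upwards [eventually_ge_atTop 1] with k hk
    have := X_ge k hk
    omega
  · refine tendsto_const_nhds.congr' ?_
    filter_upwards [eventually_ge_atTop 1, eventually_ge_atTop y.natAbs] with k h1 h2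
    rw [N_X k h1 y h2, N_X k h1 0 (by simp), sub_self]

end Pool.Agent.Results.MP_25f285_al.Bounded
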